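import Pool.Agent.J4H64.MC.Def

set_option autoImplicit false

/-! Piece LOW of project MC (statement of helper64). -/

namespace Pool.Agent.J4H52.MC

open Finset Pool.Agent.H560R2 Pool.Agent.H520R2 Pool.Agent.J4H64.MC

/-- A monotone program as a circuit with numbered gates. -/
theorem mprog_circ {X : Type*} {B : Set (X → Bool)} {s : ℕ} {g : X → Bool} (hs : 1 ≤ s)
    (hg : MComp B s g) : ∃ (t : ℕ) (op : Fin t → Bool) (a b : Fin t → {b // b ∈ B} ⊕ Fin t)
      (val : X → Fin t → Prop) (o : Fin t), t ≤ s ∧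
      (∀ i j, (a i = Sum.inr j → j < i) ∧ (b i = Sum.inr j → j < i)) ∧
      (∀ x i, val x i ↔ (if op i = true then
        (Sum.elim (fun l => l.1 x = true) (val x) (a i) ∧
          Sum.elim (fun l => l.1 x = true) (val x) (b i))
        else (Sum.elim (fun l => l.1 x = true) (val x) (a i) ∨
          Sum.elim (fun l => l.1 x = true) (val x) (b i)))) ∧
      ∀ x, val x o ↔ g x = true := by
  classical
  obtain ⟨L, hL, hLs, hgL⟩ := hg
  rcases hgL with hgB | hgL
  · exact ⟨1, fun _ => true, fun _ => Sum.inl ⟨g, hgB⟩, fun _ => Sum.inl ⟨g, hgB⟩,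
      fun x _ => g x = true, 0, hs, fun i j => ⟨fun h => by simp at h, fun h => by simp at h⟩,
      fun x i => by simp, fun x => Iff.rfl⟩
  · obtain ⟨i0, hi0, hgi⟩ := List.getElem_of_mem hgL
    obtain ⟨t, ht⟩ : ∃ t, t = L.length := ⟨_, rfl⟩
    have hidx : ∀ (k j : ℕ) (hk : k < L.length) (hj : j < L.length), k = j → L[k] = L[j] := by
      rintro k j hk hj rfl
      rfl
    have hrev : ∀ i : Fin t, t - 1 - i.val < L.length := fun i => by have := i.isLt; omega
    let fn : Fin t → X → Bool := fun i => L[t - 1 - i.val]'(hrev i)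
    have key : ∀ i : Fin t, ∃ (o : Bool) (a b : {b // b ∈ B} ⊕ Fin t),
        (∀ j, (a = Sum.inr j → j < i) ∧ (b = Sum.inr j → j < i)) ∧
        ∀ x, fn i x = true ↔ (if o = true then
          (Sum.elim (fun l => l.1 x = true) (fun j => fn j x = true) a ∧
            Sum.elim (fun l => l.1 x = true) (fun j => fn j x = true) b)
          else (Sum.elim (fun l => l.1 x = true) (fun j => fn j x = true) a ∨
            Sum.elim (fun l => l.1 x = true) (fun j => fn j x = true) b)) := by
      intro i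
      obtain ⟨o, f, g', h1, h2, h3⟩ := MProg_get hL (t - 1 - i.val) (hrev i)
      have conv : ∀ f : X → Bool, (f ∈ B ∨ ∃ j, ∃ hj : j < L.length,
          t - 1 - i.val < j ∧ L[j] = f) → ∃ a : {b // b ∈ B} ⊕ Fin t,
          (∀ j, a = Sum.inr j → j < i) ∧
          ∀ x, Sum.elim (fun l => l.1 x = true) (fun j => fn j x = true) a ↔ f x = true := by
        intro f hf
        rcases hf with hf | ⟨j, hj, hij, hjf⟩
        · exact ⟨Sum.inl ⟨f, hf⟩, fun j h => by simp at h, fun x => Iff.rfl⟩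
        · have hlt : t - 1 - j < t := by omega
          refine ⟨Sum.inr ⟨t - 1 - j, hlt⟩, fun j' h => ?_, fun x => ?_⟩
          · have := Sum.inr.inj h
            rw [← this, Fin.lt_def]
            have := i.isLt
            simp only
            omega
          · have e : fn ⟨t - 1 - j, hlt⟩ = f := by
              rw [← hjf]
              exact hidx _ _ _ _ (by simp only; omega)
            show fn ⟨t - 1 - j, hlt⟩ x = true ↔ _
            rw [e]
      obtain ⟨a, ha1, ha2⟩ := conv f h1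
      obtain ⟨b, hb1, hb2⟩ := conv g' h2
      refine ⟨o, a, b, fun j => ⟨ha1 j, hb1 j⟩, fun x => ?_⟩
      rw [ha2, hb2]
      show (L[t - 1 - i.val]'(hrev i)) x = true ↔ _
      rw [h3]
      by_cases ho : o = true
      · rw [if_pos ho, if_pos ho, Bool.and_eq_true]
      · rw [if_neg ho, if_neg ho, Bool.or_eq_true]
    choose o a b h1 h2 using key
    have hi0' : t - 1 - i0 < t := by omega
    refine ⟨t, o, a, b, fun x i => fn i x = true, ⟨t - 1 - i0, hi0'⟩, by omega, h1,
      fun x i => h2 i x, fun x => ?_⟩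
    have e : fn ⟨t - 1 - i0, hi0'⟩ = g := by
      rw [← hgi]
      exact hidx _ _ _ _ (by simp only; omega)
    show fn ⟨t - 1 - i0, hi0'⟩ x = true ↔ _
    rw [e]

section

variable {k μ m t K : ℕ}

lemma mem_graph (R : Fin m × Fin k × Fin μ → Fin t → Fin K) (w : Fin K → Bool) (v : Pnt k μ m) :
    v ∈ graph R w ↔ value R w v.1 = v.2 := by
  unfold graph
  rw [Finset.mem_image]
  constructor
  · rintro ⟨i, _, rfl⟩; rfl
  · intro h
    exact ⟨v.1, mem_univ _, by rw [h]⟩

lemma card_graph (R : Fin m × Fin k × Fin μ → Fin t → Fin K) (w : Fin K → Bool) :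
    (graph R w).card = m := by
  unfold graph
  rw [Finset.card_image_of_injective _ (fun a b hab => (Prod.mk.inj hab).1), Finset.card_univ,
    Fintype.card_fin]

/-- seeds whose graph contains few given points -/
lemma card_through (hI : S_IND) (R : Fin m × Fin k × Fin μ → Fin t → Fin K) (hR : Indep R) (e : ℕ)
    (hK : 16 * (t * (k * μ * e)) ≤ K) (Y : Finset (Pnt k μ m)) (hY : Y.card ≤ 2 * e) :
    {w : Fin K → Bool | Y ⊆ graph R w}.ncard * (2 ^ (k * μ)) ^ Y.card ≤ 2 ^ K := by
  classical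
  rcases Set.eq_empty_or_nonempty {w : Fin K → Bool | Y ⊆ graph R w} with h | ⟨w0, hw0⟩
  · rw [h]; simp
  · have hw0' : Y ⊆ graph R w0 := hw0
    have hinj : Set.InjOn (fun v : Pnt k μ m => v.1) (Y : Set (Pnt k μ m)) := by
      intro v hv v' hv' h
      have h' : v.1 = v'.1 := h
      have e1 := (mem_graph R w0 v).mp (hw0' hv)
      have e2 := (mem_graph R w0 v').mp (hw0' hv')
      exact Prod.ext h' (by rw [← e1, ← e2, h'])
    have hAc : (Y.image (fun v => v.1)).card = Y.card := Finset.card_image_of_injOn hinj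
    obtain ⟨S, hS⟩ : ∃ S : Finset (Fin m × Fin k × Fin μ),
        S = (Y.image (fun v => v.1)) ×ˢ (univ : Finset (Fin k × Fin μ)) := ⟨_, rfl⟩
    have hSc : S.card = Y.card * (k * μ) := by
      rw [hS, Finset.card_product, hAc, Finset.card_univ, Fintype.card_prod, Fintype.card_fin,
        Fintype.card_fin]
    have hind : ∀ T ⊆ S, T.Nonempty → ∑ r ∈ T, rvec R r ≠ 0 := by
      intro T hT hTn
      refine hR T hTn ?_
      have h1 : T.card ≤ 2 * e * (k * μ) :=
        (Finset.card_le_card hT).trans (by rw [hSc]; exact Nat.mul_le_mul_right _ hY)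
      calc 8 * (t * T.card) ≤ 8 * (t * (2 * e * (k * μ))) :=
            Nat.mul_le_mul_left _ (Nat.mul_le_mul_left _ h1)
        _ = 16 * (t * (k * μ * e)) := by ring
        _ ≤ K := hK
    have h1 := hI (Fin m × Fin k × Fin μ) t K R S hind (fun r => bit R w0 r)
    have h2 : {w : Fin K → Bool | Y ⊆ graph R w} ⊆
        {w : Fin K → Bool | ∀ r ∈ S, bit R w r = bit R w0 r} := by
      intro w hw r hr
      have hw' : Y ⊆ graph R w := hw
      rw [hS, Finset.mem_product] at hr
      obtain ⟨v, hv, hv1⟩ := Finset.mem_image.mp hr.1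
      have e1 := (mem_graph R w0 v).mp (hw0' hv)
      have e2 := (mem_graph R w v).mp (hw' hv)
      have e3 : value R w v.1 r.2.1 r.2.2 = value R w0 v.1 r.2.1 r.2.2 := by rw [e1, e2]
      have e4 : (v.1, r.2.1, r.2.2) = r := by
        rw [hv1]
      have e5 : bit R w (v.1, r.2.1, r.2.2) = bit R w0 (v.1, r.2.1, r.2.2) := e3
      rwa [e4] at e5
    calc _ ≤ {w : Fin K → Bool | ∀ r ∈ S, bit R w r = bit R w0 r}.ncard *
          (2 ^ (k * μ)) ^ Y.card := Nat.mul_le_mul_right _ (Set.ncard_le_ncard h2 (Set.toFinite _))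
      _ = {w : Fin K → Bool | ∀ r ∈ S, bit R w r = bit R w0 r}.ncard * 2 ^ S.card := by
          rw [hSc, ← pow_mul]
          congr 2
          ring
      _ ≤ _ := h1

end

/-- piece LOW -/
theorem t_LOW (hI : S_IND) : S_LOW := by
  classical
  intro k μ m t K e lam R hR he hk hμ ht hKm hK hlam hq2 Bs hBs s g hs hg hgf
  obtain ⟨T, op, a, b, val, o, hTs, htop, hval, ho⟩ := mprog_circ hs hg
  refine le_trans ?_ (Nat.mul_le_mul_left 2 hTs)
  obtain ⟨q, hq⟩ : ∃ q, q = 2 ^ (k * μ) := ⟨_, rfl⟩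
  rw [← hq] at hlam hq2
  have hm1 : 1 ≤ m := by omega
  have hqpos : 1 ≤ q := by rw [hq]; exact Nat.one_le_two_pow
  have hmq : q ≤ m * q := Nat.le_mul_of_pos_left _ hm1
  have hlam1 : 1 ≤ lam := by
    by_contra hcon
    have h0 : lam = 0 := by omega
    subst h0
    simp at hlam
    omega
  have hle : 1 ≤ (lam + 1) * lam := Nat.mul_pos (by omega) hlam1
  have hqe : 512 * e ≤ q := by
    refine le_trans ?_ hq2
    calc 512 * e = (512 * e) * 1 := by ring
      _ ≤ (512 * e) * ((lam + 1) * lam) := Nat.mul_le_mul_left _ hle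
      _ = _ := by ring
  obtain ⟨B, hBdef⟩ : ∃ B, B = (lam + 1) * e := ⟨_, rfl⟩
  have hBpos : 0 < B := by rw [hBdef]; exact Nat.mul_pos (by omega) he
  obtain ⟨Q, hQdef⟩ : ∃ Q, Q = 2 * (B * lam) := ⟨_, rfl⟩
  have hQpos : 0 < Q := by rw [hQdef]; exact Nat.mul_pos (by omega) (Nat.mul_pos hBpos hlam1)
  have : NeZero Q := ⟨by omega⟩
  have h4r : 4 * (64 * Q) ≤ q := by
    refine le_trans (le_of_eq ?_) hq2
    rw [hQdef, hBdef]
    ring
  have hN : Fintype.card (Pnt k μ m) = m * q := by
    rw [Fintype.card_prod, Fintype.card_fun, Fintype.card_fun, Fintype.card_bool,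
      Fintype.card_fin, Fintype.card_fin, Fintype.card_fin, ← pow_mul, hq, mul_comm μ k]
  refine spread_lower (Q := Q) (ι := Pnt k μ m) (fun (l : {b // b ∈ Bs}) x => l.1 x = true) B lam
    (64 * Q) e le_rfl ?_ ?_ (fun l => hBs l.1 l.2) (Pt := Fin K → Bool) (graph R) ?_
    op a b htop val hval o ?_ ?_
  · omega
  · refine (Nat.mul_le_mul_right _ (card_small_sets (2 * e))).trans ?_
    rw [hN]
    calc (m * q + 1) ^ (2 * e) * 4 ^ e ≤ (2 ^ lam) ^ (2 * e) * 4 ^ e :=
          Nat.mul_le_mul_right _ (Nat.pow_le_pow_left hlam _)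
      _ = 4 ^ B := by
          rw [← pow_mul, hBdef]
          have : (4 : ℕ) = 2 ^ 2 := by norm_num
          rw [this, ← pow_mul, ← pow_mul, ← pow_add]
          congr 1
          ring
  · intro Y hY
    have h1 := card_through hI R hR e hK Y hY
    rw [Fintype.card_fun, Fintype.card_fin, Fintype.card_bool]
    rw [← hq] at h1
    exact (Nat.mul_le_mul_left _ (Nat.pow_le_pow_left h4r _)).trans h1
  · intro w
    rw [ho, hgf]
    refine ⟨w, fun i => ?_⟩
    rw [Finset.mem_coe, mem_graph]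
  · -- negative inputs
    have hsub : {ω : Fin B → Fin lam → (Pnt k μ m) → Fin Q | val (WB ω : Set (Pnt k μ m)) o} ⊆
        ⋃ w ∈ (univ : Finset (Fin K → Bool)), {ω | graph R w ⊆ WB ω} := by
      intro ω hω
      have hω' : val (WB ω : Set (Pnt k μ m)) o := hω
      rw [ho, hgf] at hω'
      obtain ⟨w, hw⟩ := hω'
      simp only [Set.mem_iUnion]
      refine ⟨w, mem_univ _, ?_⟩
      intro v hv
      have h1 := (mem_graph R w v).mp hv
      have h2 := hw v.1
      rw [h1] at h2
      exact h2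
    have h1 : {ω : Fin B → Fin lam → (Pnt k μ m) → Fin Q |
        val (WB ω : Set (Pnt k μ m)) o}.ncard ≤
        ∑ w : Fin K → Bool, {ω : Fin B → Fin lam → (Pnt k μ m) → Fin Q |
          graph R w ⊆ WB ω}.ncard :=
      (Set.ncard_le_ncard hsub (Set.toFinite _)).trans (Finset.set_ncard_biUnion_le _ _)
    obtain ⟨Om, hOm⟩ : ∃ Om, Om = ((Q ^ Fintype.card (Pnt k μ m)) ^ lam) ^ B := ⟨_, rfl⟩
    have h2 : ∀ w : Fin K → Bool,
        {ω : Fin B → Fin lam → (Pnt k μ m) → Fin Q | graph R w ⊆ WB ω}.ncard * 2 ^ m ≤ Om := by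
      intro w
      have h3 := count_contains (Q := Q) B lam (by rw [hQdef]) (graph R w)
      rw [card_graph R w] at h3
      rw [hOm]
      exact h3
    have h3 : {ω : Fin B → Fin lam → (Pnt k μ m) → Fin Q |
        val (WB ω : Set (Pnt k μ m)) o}.ncard * 2 ^ m ≤ 2 ^ K * Om := by
      calc _ ≤ (∑ w : Fin K → Bool,
            {ω : Fin B → Fin lam → (Pnt k μ m) → Fin Q | graph R w ⊆ WB ω}.ncard) * 2 ^ m :=
            Nat.mul_le_mul_right _ h1
        _ ≤ ∑ w : Fin K → Bool, Om := by
            rw [Finset.sum_mul]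
            exact Finset.sum_le_sum (fun w _ => h2 w)
        _ = 2 ^ K * Om := by
            rw [Finset.sum_const, Finset.card_univ, Fintype.card_fun, Fintype.card_fin,
              Fintype.card_bool, smul_eq_mul]
    have h5 : 2 * 2 ^ K ≤ 2 ^ m := by
      calc 2 * 2 ^ K = 2 ^ (K + 1) := by rw [pow_succ]; ring
        _ ≤ 2 ^ m := Nat.pow_le_pow_right (by norm_num) hKm
    have hpos : 0 < 2 ^ m := by positivity
    rw [← hOm]
    refine Nat.le_of_mul_le_mul_right ?_ hpos
    calc _ = ({ω : Fin B → Fin lam → (Pnt k μ m) → Fin Q |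
          val (WB ω : Set (Pnt k μ m)) o}.ncard * 2 ^ m) * 2 := by ring
      _ ≤ (2 ^ K * Om) * 2 := Nat.mul_le_mul_right _ h3
      _ = (2 * 2 ^ K) * Om := by ring
      _ ≤ 2 ^ m * Om := Nat.mul_le_mul_right _ h5
      _ = _ := by ring

end Pool.Agent.J4H52.MC
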